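import Pool.Agent.Helper83.TW.Goals1

/-! First derivatives and symmetries of the error function. -/

set_option autoImplicit false

namespace Pool.Agent.Helper41.TW

open Pool.Agent.Helper83.TW Complex Set

/-- the two relevant points lie in the domain of `g` -/
theorem mem_DGh {ρ r s δ Λ η c : ℝ} {M : ℕ} (hP : Prm ρ r s δ Λ η M) {S : St}
    (hS : Ok S r s c) (hc : c ≤ ρ/64) {α z w : ℂ} (h1 : (α, w) ∈ Dom r s)
    (h2 : (α + w + z, w) ∈ Dom r s) (hz : ‖z‖ < δ) :
    (hh S (α, w), de S α z w) ∈ DGh ρ := by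
  have hρ0 := hP.hρ0
  have hρ1 := hP.hρ1
  have hr1 := hP.hr1
  have hδ1 := hP.hδ1
  have hs1 := hP.hs1
  have hc0 := hS.c0
  have bu1 := hS.bu _ h1
  have bu2 := hS.bu _ h2
  have hw := h1.2
  obtain ⟨w1, w2, w3⟩ := hw
  have hα := h1.1
  simp only at w1 w2 w3 hα
  set e : ℂ := z + S.u (α + w + z, w) - S.u (α, w) with he
  have hde : de S α z w = w + e := by
    simp only [de, he]; ring
  have hen : ‖e‖ ≤ δ + 2*c := by
    calc ‖e‖ ≤ ‖z + S.u (α + w + z, w)‖ + ‖S.u (α, w)‖ := norm_sub_le _ _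
      _ ≤ (‖z‖ + ‖S.u (α + w + z, w)‖) + ‖S.u (α, w)‖ := by
          gcongr; exact norm_add_le _ _
      _ ≤ δ + 2*c := by linarith
  have hre := (Complex.abs_re_le_norm e).trans hen
  have him := (Complex.abs_im_le_norm e).trans hen
  have hui := (Complex.abs_im_le_norm (S.u (α, w))).trans bu1
  rw [abs_le] at hre him hui
  rw [abs_lt] at w3 hα
  refine ⟨?_, ?_, ?_, ?_⟩
  · simp only [hh, add_im]
    rw [abs_lt]
    constructor <;> linarith
  · simp only [hde, add_re]
    linarith
  · simp only [hde, add_re]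
    linarith
  · simp only [hde, add_im]
    rw [abs_lt]
    constructor <;> linarith

theorem comp_hasDeriv {f : ℂ × ℂ → ℂ} {U : Set (ℂ × ℂ)} (h12 : GD12) (hU : IsOpen U)
    (hf : DifferentiableOn ℂ f U) {a b : ℂ → ℂ} {a' b' t : ℂ} (hp : (a t, b t) ∈ U)
    (ha : HasDerivAt a a' t) (hb : HasDerivAt b b' t) :
    HasDerivAt (fun x => f (a x, b x)) (D1 f (a t, b t) * a' + D2 f (a t, b t) * b') t := by
  have h := (h12 f U hU hf).2.2.2 _ hp
  have h2 : HasDerivAt (fun x => f (a x, b x)) _ t :=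
    h.comp_hasDerivAt (f := fun x => (a x, b x)) t (ha.prodMk hb)
  refine h2.congr_deriv ?_
  simp

theorem gEE1 (h12 : GD12) (hHD : GHolD) : GEE1 := by
  intro ρ r s δ Λ η M hP g hg S c hS hc
  have hρ0 := hP.hρ0
  have hρ1 := hP.hρ1
  have hr1 := hP.hr1
  have hδ0 := hP.hδ0
  have hδ1 := hP.hδ1
  have hs0 := hP.hs0
  have hs1 := hP.hs1
  have oD := isOpen_Dom r s
  have oG := isOpen_DG ρ
  have dG := hg.hol.diff
  have hDu := hHD.1 S.u _ oD (fun p hp => Dom_shift hp) (fun p hp => Dom_cj hp) hS.hu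
  have hDv := hHD.1 S.v _ oD (fun p hp => Dom_shift hp) (fun p hp => Dom_cj hp) hS.hv
  have hDg := hHD.1 g _ oG (fun p hp => DG_shift hp) (fun p hp => DG_cj hp) hg.hol
  -- membership
  have m1 : ∀ α w : ℂ, |α.im| < r - 2*δ → w ∈ Om s → (α, w) ∈ Dom r s := by
    intro α w hα hw
    exact ⟨by simp only; linarith, hw⟩
  have m2 : ∀ α z w : ℂ, |α.im| < r - 2*δ → ‖z‖ < δ → w ∈ Om s →
      (α + w + z, w) ∈ Dom r s := by
    intro α z w hα hz hw
    refine ⟨?_, hw⟩
    have hzi := (Complex.abs_im_le_norm z).trans_lt hz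
    have hwi := hw.2.2
    simp only [add_im]
    rw [abs_lt] at *
    constructor <;> linarith
  have m3 : ∀ α z w : ℂ, |α.im| < r - 2*δ → ‖z‖ < δ → w ∈ Om s →
      (hh S (α, w), de S α z w) ∈ DGh ρ := by
    intro α z w hα hz hw
    exact mem_DGh hP hS hc (m1 α w hα hw) (m2 α z w hα hz hw) hz
  have sG := DGh_subset hρ0
  refine ⟨?_, ?_, ?_, ?_⟩
  · intro α z w hα hz hw
    have hm1 := m1 α w hα hw
    have hm2 := m2 α z w hα hz hw
    have hm3 := m3 α z w hα hz hw
    have hm4 := sG hm3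
    have idz := hasDerivAt_id z
    have ida := hasDerivAt_id α
    -- z-derivatives
    have eβz : HasDerivAt (fun z' => α + w + z') 1 z := by
      simpa using idz.const_add (α + w)
    have eβa : HasDerivAt (fun α' => α' + w + z) 1 α := by
      simpa using (ida.add_const w).add_const z
    have cw : ∀ t : ℂ, HasDerivAt (fun _ : ℂ => w) 0 t := fun t => hasDerivAt_const t w
    have uz := comp_hasDeriv h12 oD hS.hu.diff hm2 eβz (cw z)
    have vz := comp_hasDeriv h12 oD hS.hv.diff hm2 eβz (cw z)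
    have ua := comp_hasDeriv (a := fun α' => α' + w + z) (b := fun _ => w) (t := α)
      h12 oD hS.hu.diff hm2 eβa (cw α)
    have va := comp_hasDeriv (a := fun α' => α' + w + z) (b := fun _ => w) (t := α)
      h12 oD hS.hv.diff hm2 eβa (cw α)
    have ua0 := comp_hasDeriv (a := fun α' => α') (b := fun _ => w) (t := α)
      h12 oD hS.hu.diff hm1 ida (cw α)
    have va0 := comp_hasDeriv (a := fun α' => α') (b := fun _ => w) (t := α)
      h12 oD hS.hv.diff hm1 ida (cw α)
    simp only [mul_one, mul_zero, add_zero] at uz vz ua va ua0 va0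
    have dez : HasDerivAt (fun z' => de S α z' w) (1 + D1 S.u (α + w + z, w)) z := by
      have : HasDerivAt (fun z' => w + z' + S.u (α + w + z', w) - S.u (α, w)) _ z :=
        ((idz.const_add w).add uz).sub_const (S.u (α, w))
      exact this
    have dea : HasDerivAt (fun α' => de S α' z w)
        (D1 S.u (α + w + z, w) - D1 S.u (α, w)) α := by
      have : HasDerivAt (fun α' => (w + z) + S.u (α' + w + z, w) - S.u (α', w)) _ α :=
        (ua.const_add (w + z)).sub ua0
      exact this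
    have hha : HasDerivAt (fun α' => hh S (α', w)) (1 + D1 S.u (α, w)) α := by
      have : HasDerivAt (fun α' => α' + S.u (α', w)) _ α := ida.add ua0
      exact this
    have gz := comp_hasDeriv (a := fun _ => hh S (α, w)) (b := fun z' => de S α z' w) (t := z)
      h12 oG dG hm4 (hasDerivAt_const z _) dez
    have ga := comp_hasDeriv (a := fun α' => hh S (α', w)) (b := fun α' => de S α' z w) (t := α)
      h12 oG dG hm4 hha dea
    refine ⟨hm3, ?_, ?_, ?_, ?_, ?_⟩
    · have h := (((((dez.pow 2).div_const 2).add gz).sub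
        ((idz.const_add w).const_mul (S.a w))).sub (vz.sub_const (S.v (α, w)))).add_const (S.γ w)
      refine (h.congr_deriv ?_)
      simp only [EEz, Nat.cast_ofNat]
      ring
    · have h := (((((dea.pow 2).div_const 2).add ga).sub_const
        (S.a w * (w + z))).sub (va.sub va0)).add_const (S.γ w)
      refine (h.congr_deriv ?_)
      simp only [EEa, Nat.cast_ofNat]
      ring
    · have s1 := hS.hu.sym _ hm1
      have s2 := hS.hu.sym _ hm2
      have s3 := hS.hv.sym _ hm1
      have s4 := hS.hv.sym _ hm2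
      have s5 := hS.ha.sym _ hw
      have s6 := hS.hγ.sym _ hw
      have s7 := hg.hol.sym _ hm4
      simp only [map_add] at s1 s2 s3 s4 s5 s6 s7
      have s8 : hh S (cj α, cj w) = cj (hh S (α, w)) := by
        simp only [hh, map_add, s1]
      have s9 : de S (cj α) (cj z) (cj w) = cj (de S α z w) := by
        simp only [de, map_add, map_sub, s1, s2]
      simp only [EE, s8, s9, s7, s5, s6, s3, s4, map_add, map_sub, map_mul, map_div₀, map_pow,
        map_ofNat]
    · have s1 := hS.hu.sym _ hm1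
      have s2 := hS.hu.sym _ hm2
      have s5 := hS.ha.sym _ hw
      have t2 := hDu.1.sym _ hm2
      have t4 := hDv.1.sym _ hm2
      have t7 := hDg.2.sym _ hm4
      simp only [map_add] at s1 s2 s5 t2 t4 t7
      have s8 : hh S (cj α, cj w) = cj (hh S (α, w)) := by
        simp only [hh, map_add, s1]
      have s9 : de S (cj α) (cj z) (cj w) = cj (de S α z w) := by
        simp only [de, map_add, map_sub, s1, s2]
      simp only [EEz, s8, s9, t7, s5, t2, t4, map_add, map_sub, map_mul, map_one]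
    · have s1 := hS.hu.sym _ hm1
      have s2 := hS.hu.sym _ hm2
      have t1 := hDu.1.sym _ hm1
      have t2 := hDu.1.sym _ hm2
      have t3 := hDv.1.sym _ hm1
      have t4 := hDv.1.sym _ hm2
      have t6 := hDg.1.sym _ hm4
      have t7 := hDg.2.sym _ hm4
      simp only [map_add] at s1 s2 t1 t2 t3 t4 t6 t7
      have s8 : hh S (cj α, cj w) = cj (hh S (α, w)) := by
        simp only [hh, map_add, s1]
      have s9 : de S (cj α) (cj z) (cj w) = cj (de S α z w) := by
        simp only [de, map_add, map_sub, s1, s2]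
      simp only [EEa, s8, s9, t6, t7, t1, t2, t3, t4, map_add, map_sub, map_mul, map_one]
  · intro w hw
    set V : Set (ℂ × ℂ) := {q | |q.1.im| < r - 2*δ ∧ ‖q.2‖ < δ} with hV
    have e1 : DifferentiableOn ℂ (fun q : ℂ × ℂ => (q.1 + w + q.2, w)) V := by
      apply Differentiable.differentiableOn
      fun_prop
    have e2 : DifferentiableOn ℂ (fun q : ℂ × ℂ => (q.1, w)) V := by
      apply Differentiable.differentiableOn
      fun_prop
    have t1 : MapsTo (fun q : ℂ × ℂ => (q.1 + w + q.2, w)) V (Dom r s) :=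
      fun q hq => m2 q.1 q.2 w hq.1 hq.2 hw
    have t2 : MapsTo (fun q : ℂ × ℂ => (q.1, w)) V (Dom r s) :=
      fun q hq => m1 q.1 w hq.1 hw
    have u1 : DifferentiableOn ℂ (fun q : ℂ × ℂ => S.u (q.1 + w + q.2, w)) V :=
      hS.hu.diff.comp e1 t1
    have u2 : DifferentiableOn ℂ (fun q : ℂ × ℂ => S.u (q.1, w)) V := hS.hu.diff.comp e2 t2
    have v1 : DifferentiableOn ℂ (fun q : ℂ × ℂ => S.v (q.1 + w + q.2, w)) V :=
      hS.hv.diff.comp e1 t1
    have v2 : DifferentiableOn ℂ (fun q : ℂ × ℂ => S.v (q.1, w)) V := hS.hv.diff.comp e2 t2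
    have du1 : DifferentiableOn ℂ (fun q : ℂ × ℂ => D1 S.u (q.1 + w + q.2, w)) V :=
      hDu.1.diff.comp e1 t1
    have du2 : DifferentiableOn ℂ (fun q : ℂ × ℂ => D1 S.u (q.1, w)) V :=
      hDu.1.diff.comp e2 t2
    have dv1 : DifferentiableOn ℂ (fun q : ℂ × ℂ => D1 S.v (q.1 + w + q.2, w)) V :=
      hDv.1.diff.comp e1 t1
    have dv2 : DifferentiableOn ℂ (fun q : ℂ × ℂ => D1 S.v (q.1, w)) V :=
      hDv.1.diff.comp e2 t2
    have q1 : DifferentiableOn ℂ (fun q : ℂ × ℂ => q.1) V :=
      differentiable_fst.differentiableOn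
    have q2 : DifferentiableOn ℂ (fun q : ℂ × ℂ => q.2) V :=
      differentiable_snd.differentiableOn
    have dde : DifferentiableOn ℂ (fun q : ℂ × ℂ => de S q.1 q.2 w) V := by
      simp only [de]
      exact ((q2.const_add w).add u1).sub u2
    have dhh : DifferentiableOn ℂ (fun q : ℂ × ℂ => hh S (q.1, w)) V := by
      simp only [hh]
      exact q1.add u2
    have e3 := dhh.prodMk dde
    have t3 : MapsTo (fun q : ℂ × ℂ => (hh S (q.1, w), de S q.1 q.2 w)) V (DG ρ) :=
      fun q hq => sG (m3 q.1 q.2 w hq.1 hq.2 hw)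
    have g0 : DifferentiableOn ℂ (fun q : ℂ × ℂ => g (hh S (q.1, w), de S q.1 q.2 w)) V :=
      dG.comp e3 t3
    have g1 : DifferentiableOn ℂ (fun q : ℂ × ℂ => D1 g (hh S (q.1, w), de S q.1 q.2 w)) V :=
      hDg.1.diff.comp e3 t3
    have g2 : DifferentiableOn ℂ (fun q : ℂ × ℂ => D2 g (hh S (q.1, w), de S q.1 q.2 w)) V :=
      hDg.2.diff.comp e3 t3
    refine ⟨?_, ?_, ?_⟩
    · simp only [EE]
      have p2 : DifferentiableOn ℂ (fun q : ℂ × ℂ => de S q.1 q.2 w ^ 2 / 2) V := by
        simp only [div_eq_mul_inv]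
        exact (dde.pow 2).mul_const _
      exact ((((p2).add g0).sub ((q2.const_add w).const_mul (S.a w))).sub
        (v1.sub v2)).add_const (S.γ w)
    · simp only [EEz]
      exact (((du1.const_add 1).mul (dde.add g2)).sub_const (S.a w)).sub dv1
    · simp only [EEa]
      exact ((g1.mul (du2.const_add 1)).add ((dde.add g2).mul (du1.sub du2))).sub (dv1.sub dv2)
  · -- Hol (Err g S)
    have n1 : ∀ p ∈ Dom (r - δ) s, (p.1, p.2) ∈ Dom r s :=
      fun p hp => ⟨by have := hp.1; simp only; linarith, hp.2⟩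
    have n2 : ∀ p ∈ Dom (r - δ) s, (p.1 + p.2 + 0, p.2) ∈ Dom r s := by
      intro p hp
      refine ⟨?_, hp.2⟩
      have h1 := hp.1
      have hwi := hp.2.2.2
      simp only [add_im, add_zero]
      rw [abs_lt] at *
      constructor <;> linarith
    have n3 : ∀ p ∈ Dom (r - δ) s, (hh S (p.1, p.2), de S p.1 0 p.2) ∈ DG ρ := by
      intro p hp
      exact sG (mem_DGh hP hS hc (n1 p hp) (n2 p hp) (by simpa using hδ0))
    refine ⟨?_, ?_, ?_⟩
    · have e1 : DifferentiableOn ℂ (fun q : ℂ × ℂ => (q.1 + q.2 + 0, q.2)) (Dom (r - δ) s) := by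
        apply Differentiable.differentiableOn
        fun_prop
      have q1 : DifferentiableOn ℂ (fun q : ℂ × ℂ => q.1) (Dom (r - δ) s) :=
        differentiable_fst.differentiableOn
      have q2 : DifferentiableOn ℂ (fun q : ℂ × ℂ => q.2) (Dom (r - δ) s) :=
        differentiable_snd.differentiableOn
      have e2 := q1.prodMk q2
      have u1 : DifferentiableOn ℂ (fun q : ℂ × ℂ => S.u (q.1 + q.2 + 0, q.2)) (Dom (r - δ) s) :=
        hS.hu.diff.comp e1 n2
      have u2 : DifferentiableOn ℂ (fun q : ℂ × ℂ => S.u (q.1, q.2)) (Dom (r - δ) s) :=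
        hS.hu.diff.comp e2 n1
      have v1 : DifferentiableOn ℂ (fun q : ℂ × ℂ => S.v (q.1 + q.2 + 0, q.2)) (Dom (r - δ) s) :=
        hS.hv.diff.comp e1 n2
      have v2 : DifferentiableOn ℂ (fun q : ℂ × ℂ => S.v (q.1, q.2)) (Dom (r - δ) s) :=
        hS.hv.diff.comp e2 n1
      have tO : MapsTo (fun q : ℂ × ℂ => q.2) (Dom (r - δ) s) (Om s) := fun q hq => hq.2
      have a1 : DifferentiableOn ℂ (fun q : ℂ × ℂ => S.a q.2) (Dom (r - δ) s) :=
        hS.ha.diff.comp q2 tO
      have γ1 : DifferentiableOn ℂ (fun q : ℂ × ℂ => S.γ q.2) (Dom (r - δ) s) :=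
        hS.hγ.diff.comp q2 tO
      have dde : DifferentiableOn ℂ (fun q : ℂ × ℂ => de S q.1 0 q.2) (Dom (r - δ) s) := by
        simp only [de]
        exact ((q2.add_const 0).add u1).sub u2
      have dhh : DifferentiableOn ℂ (fun q : ℂ × ℂ => hh S (q.1, q.2)) (Dom (r - δ) s) := by
        simp only [hh]
        exact q1.add u2
      have g0 : DifferentiableOn ℂ (fun q : ℂ × ℂ => g (hh S (q.1, q.2), de S q.1 0 q.2))
          (Dom (r - δ) s) := dG.comp (dhh.prodMk dde) n3
      change DifferentiableOn ℂ (fun q : ℂ × ℂ => EE g S q.1 0 q.2) (Dom (r - δ) s)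
      simp only [EE]
      have p2 : DifferentiableOn ℂ (fun q : ℂ × ℂ => de S q.1 0 q.2 ^ 2 / 2)
          (Dom (r - δ) s) := by
        simp only [div_eq_mul_inv]
        exact (dde.pow 2).mul_const _
      exact ((((p2).add g0).sub (a1.mul (q2.add_const 0))).sub
        (v1.sub v2)).add γ1
    · intro p hp
      have s1 := hS.hu.per _ (n1 p hp)
      have s2 := hS.hu.per _ (n2 p hp)
      have s3 := hS.hv.per _ (n1 p hp)
      have s4 := hS.hv.per _ (n2 p hp)
      have s5 := hg.hol.per _ (n3 p hp)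
      simp only [add_zero] at s1 s2 s3 s4 s5
      have e1 : p.1 + 1 + p.2 = p.1 + p.2 + 1 := by ring
      have s8 : hh S (p.1 + 1, p.2) = hh S (p.1, p.2) + 1 := by
        simp only [hh, s1]; ring
      have s9 : de S (p.1 + 1) 0 p.2 = de S p.1 0 p.2 := by
        simp only [de, add_zero, e1, s1, s2]
      simp only [Err, EE, s8, s9, s5, add_zero, e1, s3, s4]
    · intro p hp
      have s1 := hS.hu.sym _ (n1 p hp)
      have s2 := hS.hu.sym _ (n2 p hp)
      have s3 := hS.hv.sym _ (n1 p hp)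
      have s4 := hS.hv.sym _ (n2 p hp)
      have s5 := hS.ha.sym _ hp.2
      have s6 := hS.hγ.sym _ hp.2
      have s7 := hg.hol.sym _ (n3 p hp)
      simp only [map_add, add_zero] at s1 s2 s3 s4 s5 s6 s7
      have s8 : hh S (cj p.1, cj p.2) = cj (hh S (p.1, p.2)) := by
        simp only [hh, map_add, s1]
      have s9 : de S (cj p.1) 0 (cj p.2) = cj (de S p.1 0 p.2) := by
        simp only [de, map_add, map_sub, add_zero, s1, s2]
      simp only [Err, EE, s8, s9, s7, s5, s6, s3, s4, map_add, map_sub, map_mul, map_div₀,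
        map_pow, map_ofNat, add_zero]
  · intro p hp
    have n1 : (p.1, p.2) ∈ Dom r s := ⟨by have := hp.1; simp only; linarith, hp.2⟩
    have n2 : (p.1 + p.2 + 0, p.2) ∈ Dom r s := by
      refine ⟨?_, hp.2⟩
      have h1 := hp.1
      have hwi := hp.2.2.2
      simp only [add_im, add_zero]
      rw [abs_lt] at *
      constructor <;> linarith
    exact mem_DGh hP hS hc n1 n2 (by simpa using hδ0)

end Pool.Agent.Helper41.TW
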